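import Mathlib
import Pool.Agent.TH504.CB.PeriodDefs

/-!
# Absolute Hodge classes on the product of a complex torus and a variety

`A` is a complex torus with rational homology `W`, tangent space `T` and `per : W → T`; `V` is the rational cohomology of a smooth
projective variety `Y` with its Hodge operator; `HAZ W v` is the rational cohomology of `A × Y`.
-/

set_option autoImplicit false

namespace Pool.Agent.Q265.AH

open Matrix Module Pool.Agent.H204R3.CM Pool.Agent.W437.HD Pool.Agent.TH504.VY Pool.Agent.TH504.CB
  Pool.Agent.TH131.GHC

variable {W T : Type} [AddCommGroup W] [Module ℚ W] [AddCommGroup T] [Module ℂ T]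
  {per : W →+ T} {v : ℕ} {V : Coh v}

/-- Two spaces of rational classes, `abs` on `A × Y` and `absY` on `Y`, with two properties of the absolute Hodge classes in the
sense of Deligne: the exterior product of a combination of products of divisor classes on `A` (they are absolute Hodge classes, since
they are classes of algebraic cycles) and an absolute Hodge class on `Y` is an absolute Hodge class on `A × Y`; the restriction of an
absolute Hodge class on `A × Y` to `{0} × Y` is an absolute Hodge class on `Y`. -/
structure AbsoluteClasses (per : W →+ T) (v : ℕ) where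
  /-- the absolute Hodge classes on `A × Y` -/
  abs : Submodule ℚ (HAZ W v)
  /-- the absolute Hodge classes on `Y` -/
  absY : Submodule ℚ (Fin v → ℚ)
  /-- products of divisor classes on `A` and an absolute Hodge class on `Y` -/
  cross_mem : ∀ (k : ℕ), ∀ f ∈ divisorSpan per k, ∀ x ∈ absY, cross f x ∈ abs
  /-- restriction to `{0} × Y` -/
  restrict_mem : ∀ F ∈ abs, F 0 (fun i => i.elim0) ∈ absY

/-- All Hodge classes on `A × Y` are absolute Hodge classes if and only if all Hodge classes on `Y` are: for every notion of
absolute Hodge classes with the properties in `AbsoluteClasses`. -/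
def AbsoluteIff (per : W →+ T) {v : ℕ} (V : Coh v) : Prop :=
  ∀ S : AbsoluteClasses per v,
    (∀ F, IsHodgeOnProduct per V F → F ∈ S.abs) ↔ ∀ x, IsHodgeOn V x → x ∈ S.absY

theorem isHodgeOnProduct_pullback {x : Fin v → ℚ} (hx : IsHodgeOn V x) :
    IsHodgeOnProduct per V (cross (AlternatingMap.constOfIsEmpty ℚ W (Fin 0) (1 : ℚ)) x) := by
  refine ⟨Pi.single 0 (AlternatingMap.constOfIsEmpty ℝ T (Fin 0) (cv x)), fun k w => ?_, fun k u => ?_⟩
  · unfold cross
    by_cases hk : k = 0
    · subst hk
      rw [Pi.single_eq_same, Pi.single_eq_same]
      simp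
    · rw [Pi.single_eq_of_ne hk, Pi.single_eq_of_ne hk]
      funext b
      simp [cv]
  · by_cases hk : k = 0
    · subst hk
      rw [Pi.single_eq_same]
      have h : V.z *ᵥ cv x = 0 := hx
      simp [h]
    · rw [Pi.single_eq_of_ne hk]
      simp

/-- If the Hodge classes on `A × Y` are sums of products of products of divisor classes on `A` and Hodge classes on `Y`, then they
are absolute Hodge classes if and only if those on `Y` are. -/
theorem absoluteIff (h : ∀ F, IsHodgeOnProduct per V F → F ∈ crossSpan per V) : AbsoluteIff per V := by
  intro S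
  constructor
  · intro h1 x hx
    have h2 := S.restrict_mem _ (h1 _ (isHodgeOnProduct_pullback hx))
    have h3 : (cross (AlternatingMap.constOfIsEmpty ℚ W (Fin 0) (1 : ℚ)) x : HAZ W v) 0 (fun i => i.elim0) = x := by
      unfold cross
      rw [Pi.single_eq_same]
      simp
    rwa [h3] at h2
  · intro h1 F hF
    have h2 : crossSpan per V ≤ S.abs := by
      refine Submodule.span_le.2 ?_
      rintro _ ⟨k, f, x, hf, hx, rfl⟩
      exact S.cross_mem k f hf x (h1 x hx)
    exact h2 (h F hF)

end Pool.Agent.Q265.AH
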